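import Pool.Agent.W69.DZ.All
import Pool.Agent.Y710.C4.Tr

/-!
Unconditional Montgomery-Taylor bound for truncated multiplicities.
-/

set_option autoImplicit false

open Complex Filter Topology Set MeasureTheory
open scoped BigOperators ComplexConjugate

namespace Pool.Agent.Y710.C4

open H370 H295SI H143TG TH803UC

/-- capped weight: `m^2` for `m <= mu`, `2 mu m - mu^2` beyond; off the line `2 mu m - mu^2/2` for
each distinct zero -/
noncomputable def wt (μ : ℝ) (F : ℂ → ℂ) (s : ℂ) : ℝ :=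
  if s.re = 1 / 2 then (if (mult F s : ℝ) ≤ μ then (mult F s : ℝ) ^ 2 else 2 * μ * mult F s - μ ^ 2)
  else 2 * μ * mult F s - μ ^ 2 / 2

/-- the weight is at most `2 μ m` -/
lemma wt_le {μ : ℝ} (hμ : 2 ≤ μ) (F : ℂ → ℂ) (s : ℂ) : wt μ F s ≤ 2 * μ * mult F s := by
  have h0 : (0 : ℝ) ≤ mult F s := Nat.cast_nonneg _
  unfold wt
  split_ifs with h1 h2
  · nlinarith
  · nlinarith
  · nlinarith

section

variable {F : ℂ → ℂ} (hF : GoodL F) {U1 U2 : ℝ} (hU : 1 ≤ U1)

include hF hU in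
theorem capQ {g : ℝ → ℝ} (hg : Win g) (Λ : ℝ) {μ : ℝ} (hμ : 2 ≤ μ) :
    ∑ s ∈ Zf F U1 U2, wt μ F s ≤ QQG g F Λ U1 U2 := by
  classical
  obtain ⟨E, iE1, iE2, k, hk⟩ := gramG_exists hg Λ
  set W := Zf F U1 U2 with hW
  set Z : Finset ℂ := W.image zz with hZ
  set m : ℂ → ℕ := fun z => mult F (1 / 2 + I * z) with hm
  have hback : ∀ s : ℂ, (1 / 2 + I * zz s) = s := by
    intro s
    have := zz_spec s
    linear_combination -this
  have hmz : ∀ s : ℂ, m (zz s) = mult F s := by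
    intro s; simp only [hm]; rw [hback]
  have hWm : ∀ s ∈ W, s ∈ zset F U1 U2 := fun s hs => (mem_Zf hF hU).mp hs
  have hsumZ : ∀ {M : Type} [AddCommMonoid M] (f : ℂ → M),
      ∑ z ∈ Z, f z = ∑ s ∈ W, f (zz s) := by
    intro M _ f
    rw [hZ, Finset.sum_image (fun s _ s' _ h => zz_inj h)]
  have hZc : ∀ z ∈ Z, conj z ∈ Z := by
    intro z hz
    rw [hZ, Finset.mem_image] at hz
    obtain ⟨s, hs, rfl⟩ := hz
    rw [← zz_refl]
    exact Finset.mem_image_of_mem _ ((mem_Zf hF hU).mpr (zset_refl hF hU (hWm s hs)))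
  have hmc : ∀ z ∈ Z, m (conj z) = m z := by
    intro z hz
    rw [hZ, Finset.mem_image] at hz
    obtain ⟨s, hs, rfl⟩ := hz
    have := hWm s hs
    rw [← zz_refl, hmz, hmz, mult_refl hF this.1 this.2.1 (by linarith [this.2.2.1])]
  set d : ℂ → ℝ := fun z => if z.im = 0 then min (m z : ℝ) μ else μ with hd
  have hT := trace_mu (fun z w => phiG g Λ (z - w)) k
    (by
      intro z w
      rw [hk, ← phiG_even hg]
      congr 1
      ring)
    (by
      intro z w
      rw [← phiG_even hg]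
      congr 1
      ring)
    Z hZc m hmc d (by linarith : 0 < μ) (by
      intro z
      simp only [hd]
      split_ifs
      · exact min_le_right _ _
      · exact le_rfl)
  simp only [sub_self, phiG_zero hg, Complex.one_re, mul_one] at hT
  have hlast : ∑ z ∈ Z.filter (fun z => 0 ≤ z.im), (2 * μ - 2 * d z) *
      (cw m z / 2 * ((phiG g Λ ((starRingEnd ℂ) z - z)).re - 1)) = 0 := by
    refine Finset.sum_eq_zero fun z hz => ?_
    by_cases h : z.im = 0
    · have hc : (starRingEnd ℂ) z = z := Complex.conj_eq_iff_im.mpr h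
      rw [hc, sub_self, phiG_zero hg, Complex.one_re, sub_self, mul_zero, mul_zero]
    · simp only [hd, if_neg h, sub_self, zero_mul]
  rw [hlast, add_zero] at hT
  have hQ : (∑ z ∈ Z, ∑ w ∈ Z, (m z : ℂ) * (m w : ℂ) * (phiG g Λ (z - w)) ^ 2).re
      = QQG g F Λ U1 U2 := by
    rw [QQG_eq hF hU, hsumZ]
    simp only [hsumZ, hmz, ← hW]
  rw [hQ] at hT
  refine le_trans (le_of_eq ?_) hT
  -- the sum of the weights
  set w' : ℂ → ℝ := fun z => if z.im = 0 then (if (m z : ℝ) ≤ μ then (m z : ℝ) ^ 2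
    else 2 * μ * m z - μ ^ 2) else 2 * μ * m z - μ ^ 2 / 2 with hw'
  have h1 : ∑ s ∈ W, wt μ F s = ∑ z ∈ Z, w' z := by
    rw [hsumZ]
    refine Finset.sum_congr rfl fun s _ => ?_
    simp only [hw', wt, hmz, zz_im]
    by_cases hs : s.re = 1 / 2
    · have hs' : -(s.re - 1 / 2) = 0 := by rw [hs]; ring
      simp only [if_pos hs, if_pos hs']
    · have hs' : ¬ (-(s.re - 1 / 2) = 0) := fun h => hs (by linarith)
      simp only [if_neg hs, if_neg hs']
  have h2 := split_upper Z hZc (fun _ => 1) (fun _ _ => rfl) (fun z => ((w' z : ℝ) : ℂ))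
  simp only [Nat.cast_one, one_mul] at h2
  have h3 : ∑ z ∈ Z, w' z = ∑ z ∈ Z.filter (fun z => 0 ≤ z.im),
      (cw (fun _ => 1) z / 2 * (w' z + w' (conj z))) := by
    apply Complex.ofReal_injective
    push_cast
    exact h2
  rw [h1, h3, Finset.mul_sum, ← Finset.sum_sub_distrib]
  refine Finset.sum_congr rfl fun z hz => ?_
  have hzZ := (Finset.mem_filter.1 hz).1
  by_cases h : z.im = 0
  · have hc : (starRingEnd ℂ) z = z := Complex.conj_eq_iff_im.mpr h
    simp only [hw', hd, cw, if_pos h, hc]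
    by_cases h4 : (m z : ℝ) ≤ μ
    · rw [if_pos h4, min_eq_left h4]
      push_cast
      ring
    · rw [if_neg h4, min_eq_right (le_of_not_ge h4)]
      push_cast
      ring
  · have h' : ¬ (conj z).im = 0 := by rw [Complex.conj_im]; simpa using h
    simp only [hw', hd, cw, if_neg h, if_neg h', hmc z hzZ]
    push_cast
    ring

include hF hU in
/-- enlarging the interval -/
theorem wt_mono {a b : ℝ} {μ : ℝ} (hμ : 2 ≤ μ) (ha : U1 ≤ a) (hb : b ≤ U2) :
    ∑ s ∈ Zf F U1 U2, wt μ F s ≤ ∑ s ∈ Zf F a b, wt μ F s +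
      2 * μ * ((NN F U1 U2 : ℝ) - NN F a b) := by
  classical
  have h' : 1 ≤ a := hU.trans ha
  have hsub : Zf F a b ⊆ Zf F U1 U2 := by
    intro s hs
    rw [mem_Zf hF h'] at hs
    rw [mem_Zf hF hU]
    exact zset_mono F ha hb hs
  have e1 := Finset.sum_sdiff (f := fun s => wt μ F s) hsub
  have e2 := Finset.sum_sdiff (f := fun s => (mult F s : ℝ)) hsub
  have e3 : ∑ s ∈ Zf F U1 U2 \ Zf F a b, wt μ F s ≤
      2 * μ * ∑ s ∈ Zf F U1 U2 \ Zf F a b, (mult F s : ℝ) := by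
    rw [Finset.mul_sum]
    exact Finset.sum_le_sum fun s _ => wt_le hμ F s
  have e4 : (NN F U1 U2 : ℝ) = ∑ s ∈ Zf F U1 U2, (mult F s : ℝ) := by
    rw [NN_eq hF hU]; push_cast; rfl
  have e5 : (NN F a b : ℝ) = ∑ s ∈ Zf F a b, (mult F s : ℝ) := by
    rw [NN_eq hF h']; push_cast; rfl
  have e6 : (NN F U1 U2 : ℝ) - NN F a b = ∑ s ∈ Zf F U1 U2 \ Zf F a b, (mult F s : ℝ) := by
    rw [e4, e5]; linarith
  rw [e6]
  linarith

end

theorem main_cap (h1 : WinS) (h2 : ConvS) (h3 : KSqS) (h4 : ConstS)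
    (h9 : CountShort) (h12 : PairShort) {F : ℂ → ℂ} (hF : GoodL F) (μ h ε : ℝ) (hμ : 2 ≤ μ)
    (hh0 : 0 < h) (hh1 : h ≤ 1) (hε : 0 < ε) :
    ∃ T0 : ℝ, 1 ≤ T0 ∧ ∀ T : ℝ, T0 ≤ T → ∀ H : ℝ, T ^ h ≤ H → H ≤ T →
      ∑ s ∈ Zf F T (T + H), wt μ F s ≤ (cc h + ε) * (NN F T (T + H) : ℝ) := by
  have hs2 : 0 < Real.sqrt 2 := Real.sqrt_pos.2 (by norm_num)
  set s : ℝ := Real.sqrt 2 * h with hs
  have hs0 : 0 < s := by positivity
  have hs1 : s ≤ Real.sqrt 2 := by
    rw [hs]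
    nlinarith
  have hW := h1 s hs0 hs1
  have hC := h2 s hs0 hs1
  have hK := h3 s hs0 hs1
  have hc := h4 h hh0 hh1
  rw [← hs] at hc
  set R : ℝ → ℝ := RS s with hR
  set J : ℝ := ∫ α in (0 : ℝ)..1, α * R α with hJ
  have hJ0 : 0 ≤ J := by
    apply intervalIntegral.integral_nonneg (by norm_num)
    intro u hu
    exact mul_nonneg hu.1 (hC.nonneg u)
  have hR0 : 0 ≤ R 0 := hC.nonneg 0
  have hcR : ∀ x, cR R x = R 0 / x + 2 * x * J := fun x => rfl
  have hcc0 : 0 ≤ cc h := by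
    rw [← hc, hcR]
    positivity
  set e : ℝ := min ε 1 with he
  have he0 : 0 < e := lt_min hε one_pos
  have he1 : e ≤ ε := min_le_left _ _
  have he2 : e ≤ 1 := min_le_right _ _
  set K : ℝ := 4 + cc h + 2 * μ with hKdef
  have hK1 : 1 ≤ K := by linarith
  have hK0 : 0 < K := by linarith
  set η : ℝ := e / (80 * K) with hη
  have hη0 : 0 < η := by positivity
  have hηK : K * η = e / 80 := by rw [hη]; field_simp
  have hηe : η ≤ e / 80 := by
    rw [← hηK]
    nlinarith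
  set δ : ℝ := min (h / 2) (e * h ^ 2 / (8 * (R 0 + 1))) with hδ
  have hδ0 : 0 < δ := lt_min (by positivity) (by positivity)
  have hδ1 : δ ≤ h / 2 := min_le_left _ _
  have hδ2 : δ * (8 * (R 0 + 1)) ≤ e * h ^ 2 := by
    have := min_le_right (h / 2) (e * h ^ 2 / (8 * (R 0 + 1)))
    rw [← hδ, le_div_iff₀ (by positivity)] at this
    exact this
  -- the constant at `h - δ`
  have hcδ : cR R (h - δ) ≤ cc h + e / 4 := by
    rw [hcR, ← hc, hcR]
    have hhδ : 0 < h - δ := by linarith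
    have h5 : R 0 / (h - δ) ≤ R 0 / h + e / 4 := by
      rw [div_le_iff₀ hhδ, add_mul, div_mul_eq_mul_div, ← sub_le_iff_le_add, ]
      have h6 : R 0 - e / 4 * (h - δ) ≤ R 0 * (h - δ) / h := by
        rw [le_div_iff₀ hh0]
        nlinarith [mul_nonneg hR0 hδ0.le, mul_pos he0 hh0]
      linarith
    have h7 : 2 * (h - δ) * J ≤ 2 * h * J := by nlinarith
    linarith
  obtain ⟨T2, hT2, hPC⟩ := h12 (gS s) R hW hC hK F hF h δ η hδ0 (by linarith) hh1 hη0
  obtain ⟨C, hC0, hends⟩ := h9 F hF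
  set B : ℝ := max 3 (2 * Real.pi * C * (80 * K) / e) with hB
  have hB3 : 3 ≤ B := le_max_left _ _
  refine ⟨max (max 10 T2) (B ^ (1 / h)), le_trans (by norm_num) ((le_max_left _ _).trans
    (le_max_left _ _)), fun T hT H hH1 hH2 => ?_⟩
  have hT10 : 10 ≤ T := ((le_max_left _ _).trans (le_max_left _ _)).trans hT
  have hTT2 : T2 ≤ T := ((le_max_right _ _).trans (le_max_left _ _)).trans hT
  have hTB : B ≤ T ^ h := by
    have h5 : B ^ (1 / h) ≤ T := (le_max_right _ _).trans hT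
    have h6 := Real.rpow_le_rpow (Real.rpow_nonneg (by linarith) _) h5 hh0.le
    rw [← Real.rpow_mul (by linarith), one_div_mul_cancel hh0.ne', Real.rpow_one] at h6
    exact h6
  have hHB : B ≤ H := hTB.trans hH1
  have hH3 : 3 ≤ H := hB3.trans hHB
  have hHC : 2 * Real.pi * C * (80 * K) / e ≤ H := (le_max_right _ _).trans hHB
  obtain ⟨U1, U2, hU1, hU1', hU2, hU2', hNN, hQQ⟩ := hPC T hTT2 H hH1 hH2
  have hL : 0 < Real.log T := Real.log_pos (by linarith)
  set M : ℝ := H * Real.log T / (2 * Real.pi) with hM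
  have hpi := Real.pi_pos
  have hM0 : 0 < M := by positivity
  have hTL : H * Real.log T = 2 * Real.pi * M := by rw [hM]; field_simp
  rw [hTL] at hNN
  have hpi2 : Real.pi < 3.15 := Real.pi_lt_d2
  have hηM : η * (2 * Real.pi * M) ≤ 7 * (η * M) := by
    have : 2 * Real.pi ≤ 7 := by linarith
    calc η * (2 * Real.pi * M) = (η * M) * (2 * Real.pi) := by ring
      _ ≤ (η * M) * 7 := by
        apply mul_le_mul_of_nonneg_left this (by positivity)
      _ = 7 * (η * M) := by ring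
  obtain ⟨hNNl, hNNu⟩ := abs_le.mp hNN
  have hU : 1 ≤ U1 := by linarith
  have hb1 := capQ hF hU hW ((h - δ) * Real.log T) hμ (U2 := U2)
  have hQ : QQG (gS s) F ((h - δ) * Real.log T) U1 U2 ≤ M * (cc h + e / 4 + η) := by
    refine hQQ.trans ?_
    exact mul_le_mul_of_nonneg_left (by linarith) hM0.le
  have hT1 : 1 ≤ T := by linarith
  have hE := wt_mono hF hT1 hμ hU1 hU2'
  have hNNm : (NN F U1 U2 : ℝ) ≤ NN F T (T + H) := by
    exact_mod_cast NN_mono hF hT1 hU1 hU2'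
  have hend := (hends T hT10 H hH3 hH2 U1 U2 hU1 hU1' hU2 hU2').2
  have hCL : C * Real.log T ≤ η * M := by
    rw [hM]
    rw [div_le_iff₀ he0] at hHC
    have : η * (H * Real.log T / (2 * Real.pi)) =
      (H * e) * (Real.log T / (160 * K * Real.pi)) := by rw [hη]; field_simp; ring
    rw [this]
    calc C * Real.log T = (2 * Real.pi * C * (80 * K)) * (Real.log T / (160 * K * Real.pi)) := by
          field_simp; ring
      _ ≤ (H * e) * (Real.log T / (160 * K * Real.pi)) :=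
        mul_le_mul_of_nonneg_right hHC (by positivity)
  have hNN0 : (0 : ℝ) ≤ NN F T (T + H) := Nat.cast_nonneg _
  have heM : 0 < e * M := by positivity
  have hηM0 : 0 < η * M := by positivity
  have hηeM : η * M ≤ e * M / 80 := by
    have := mul_le_mul_of_nonneg_right hηe hM0.le
    linarith
  have hKηM : K * (η * M) = e * M / 80 := by
    rw [← mul_assoc, hηK]; ring
  -- `κ N ≤ κ M + e M / 10` for `|κ| ≤ K`
  have hκ : ∀ κ : ℝ, |κ| ≤ K → κ * (NN F T (T + H) : ℝ) ≤ κ * M + e * M / 10 := by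
    intro κ hκ
    have a1 : |(NN F T (T + H) : ℝ) - M| ≤ 8 * (η * M) := by
      rw [abs_le]; constructor <;> linarith
    have a2 : κ * ((NN F T (T + H) : ℝ) - M) ≤ K * (8 * (η * M)) := by
      refine (le_abs_self _).trans ?_
      rw [abs_mul]
      exact mul_le_mul hκ a1 (abs_nonneg _) hK0.le
    have a3 : K * (8 * (η * M)) = 8 * (e * M / 80) := by rw [← hKηM]; ring
    rw [a3] at a2
    linarith
  have h8 : M * (cc h + e / 4 + η) = cc h * M + e * M / 4 + η * M := by ring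
  rw [h8] at hQ
  have b0 : 2 * μ * ((NN F T (T + H) : ℝ) - NN F U1 U2) ≤ K * (η * M) := by
    have a1 : (NN F T (T + H) : ℝ) - NN F U1 U2 ≤ η * M := by linarith
    have a2 : 0 ≤ (NN F T (T + H) : ℝ) - NN F U1 U2 := by linarith
    have a3 : 2 * μ ≤ K := by linarith
    exact mul_le_mul a3 a1 a2 hK0.le
  have b1 : (cc h + e) * (NN F T (T + H) : ℝ) ≤ (cc h + ε) * (NN F T (T + H) : ℝ) :=
    mul_le_mul_of_nonneg_right (by linarith) hNN0
  have b2 := hκ (-(cc h + e)) (by rw [abs_le]; constructor <;> linarith)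
  have b3 : -(cc h + e) * M = -(cc h * M) - e * M := by ring
  rw [b3] at b2
  rw [hKηM] at b0
  linarith

/-- **Montgomery-Taylor bound for truncated multiplicities** -/
theorem capped {F : ℂ → ℂ} (hF : GoodL F) (μ h ε : ℝ) (hμ : 2 ≤ μ) (hh0 : 0 < h) (hh1 : h ≤ 1)
    (hε : 0 < ε) :
    ∃ T0 : ℝ, 1 ≤ T0 ∧ ∀ T : ℝ, T0 ≤ T → ∀ H : ℝ, T ^ h ≤ H → H ≤ T →
      ∑ᶠ s ∈ zset F T (T + H), wt μ F s ≤ (H295SI.cc h + ε) * (NN F T (T + H) : ℝ) := by
  obtain ⟨T0, hT1, hT0⟩ := main_cap H255SI.winS H793SI.convS H218SI3.kSqS H228SI.constS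
    H965SI.countShort (H613SI.pairShort H627SI.lamSmooth H228SI.qqJJ H965SI.countShort
      (H804JJ.jjShort H399SI.explShort Pool.Agent.H431R2.SI.outerShort)) hF μ h ε hμ
      hh0 hh1 hε
  refine ⟨T0, hT1, fun T hT H hH1 hH2 => ?_⟩
  have hT' : 1 ≤ T := hT1.trans hT
  rw [finsum_Zf hF hT']
  exact hT0 T hT H hH1 hH2

end Pool.Agent.Y710.C4
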